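import Pool.Agent.Lib.MP_1185bc_an.Main

set_option autoImplicit false

namespace Pool.Agent.Results.MP_1185bc_an.DomainReduction

open Pool.Agent.Lib.MP_1185bc_an

/-- Q1, Q2 and the special case (no epimorphism from a Banach algebra onto a special Banach algebra
has separating space equal to the whole algebra) are equivalent. -/
theorem result.{u} :
    (AllSemiprime.{u} ↔ NoWildSpecial.{u}) ∧ (AllPrime.{u} ↔ NoWildSpecial.{u}) :=
  main

end Pool.Agent.Results.MP_1185bc_an.DomainReduction
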