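import Pool.Agent.Lib.MP_1185bc_an.MinC

set_option autoImplicit false

open Filter Topology

namespace Pool.Agent.Results.MP_1185bc_an.MinimalIdeals

open Pool.Agent.Lib.MP_1185bc_an

/-- Let `θ` be a discontinuous epimorphism from a Banach algebra `B` onto a semiprime Banach
algebra `A`. Then there are a minimal closed ideal `J` of `A` and `p ≠ 0` in `J` such that: `J`
consists of quasinilpotent elements and lies in the separating space of `θ`; `a p b = 0` implies
`a p = 0` or `p b = 0`; `p J ⊆ closure (p a J)` if `p a ≠ 0`; `J p ⊆ closure (J a p)` if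
`a p ≠ 0`; and no elementary operator `x ↦ ∑ a_i x b_i` is a compact operator on `J`, unless it
vanishes on `J`. -/
theorem result.{u} (B A : Type u)
    [NonUnitalNormedRing B] [NormedSpace ℂ B] [IsScalarTower ℂ B B] [SMulCommClass ℂ B B]
    [CompleteSpace B]
    [NonUnitalNormedRing A] [NormedSpace ℂ A] [IsScalarTower ℂ A A] [SMulCommClass ℂ A A]
    [CompleteSpace A] (hA : IsSemiprime A)
    (θ : B →ₙₐ[ℂ] A) (hθ : Function.Surjective θ) (hd : ¬ Continuous θ) :
    ∃ (J : Submodule ℂ A) (p : A), MinimalClosedIdeal J ∧ (∀ x ∈ J, QuasiNil x) ∧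
      (∀ x ∈ J, ∃ b : ℕ → B, Tendsto b atTop (𝓝 0) ∧
        Tendsto (fun n => θ (b n)) atTop (𝓝 x)) ∧
      p ∈ J ∧ p ≠ 0 ∧
      (∀ a b : A, a * p * b = 0 → a * p = 0 ∨ p * b = 0) ∧
      (∀ a : A, p * a ≠ 0 → ∀ x ∈ J, p * x ∈ closure {z | ∃ y ∈ J, z = p * a * y}) ∧
      (∀ a : A, a * p ≠ 0 → ∀ x ∈ J, x * p ∈ closure {z | ∃ y ∈ J, z = y * a * p}) ∧
      ∀ (n : ℕ) (a b : Fin n → A),
        IsCompactOperator (fun x : J => ∑ i, a i * (x : A) * b i) →
          ∀ x ∈ J, ∑ i, a i * x * b i = 0 :=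
  exists_minimal_ideal B A hA θ hθ hd

end Pool.Agent.Results.MP_1185bc_an.MinimalIdeals
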